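import Mathlib
import Pool.Agent.Helper22.ETNoise

set_option autoImplicit false
open Finset

/-!
Low-degree value queries are generic on the cells cut out by digests (functions of the residues
of the weights): Schwartz-Zippel on products of finite sets, cells of residues, union bound over
the pairs of handles of the ideal run, and comparison of the law of the residues with the uniform
law.
-/

namespace Pool.Agent.Helper14.LK

open Pool.Agent.Helper22.EP Pool.Agent.Helper22.ETModel

/-- Schwartz-Zippel on a product of finite sets all of size at least `H`. -/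
theorem card_zero_box {ι : Type*} [Fintype ι] [DecidableEq ι] (P : MvPolynomial ι ℝ) (hP : P ≠ 0)
    (S : ι → Finset ℝ) (H : ℕ) (hS : ∀ i, H ≤ (S i).card) :
    ((Fintype.piFinset S).filter fun f => MvPolynomial.eval f P = 0).card * H ≤
      P.totalDegree * ∏ i, (S i).card := by
  classical
  rcases Nat.eq_zero_or_pos H with hH | hH
  · subst hH; simp
  set N := Fintype.card ι with hN
  set e := Fintype.equivFin ι with he
  set p' := MvPolynomial.rename e P with hp'
  have hp0 : p' ≠ 0 := by
    intro h
    apply hP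
    apply MvPolynomial.rename_injective e e.injective
    rw [map_zero]; exact h
  have h1 := MvPolynomial.schwartz_zippel_sup_sum hp0 (fun k => S (e.symm k))
  have hSpos : ∀ i, 0 < (S i).card := fun i => lt_of_lt_of_le hH (hS i)
  have h2 : ((Fintype.piFinset S).filter fun f => MvPolynomial.eval f P = 0).card ≤
      ((Fintype.piFinset fun k : Fin N => S (e.symm k)).filter
        fun f => MvPolynomial.eval f p' = 0).card := by
    apply Finset.card_le_card_of_injOn (fun f => fun k => f (e.symm k))
    · intro f hf
      rw [Finset.mem_coe, mem_filter, Fintype.mem_piFinset] at hf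
      rw [Finset.mem_coe, mem_filter, Fintype.mem_piFinset]
      refine ⟨fun k => hf.1 _, ?_⟩
      rw [hp', MvPolynomial.eval_rename]
      have : ((fun k => f (e.symm k)) ∘ e) = f := by
        funext i; simp
      rw [this]; exact hf.2
    · intro f _ f' _ heq
      funext i
      have := congrFun heq (e i)
      simpa using this
  have h3 : p'.totalDegree ≤ P.totalDegree := MvPolynomial.totalDegree_rename_le _ _
  have h4 : (p'.support.sup fun s => ∑ i, ((s i : ℚ≥0) / ((S (e.symm i)).card : ℚ≥0))) ≤
      (P.totalDegree : ℚ≥0) / (H : ℚ≥0) := by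
    apply Finset.sup_le
    intro s hs
    have h5 : ∑ i, ((s i : ℚ≥0) / ((S (e.symm i)).card : ℚ≥0)) ≤ ∑ i, ((s i : ℚ≥0) / (H : ℚ≥0)) := by
      apply Finset.sum_le_sum
      intro i _
      have hHp : (0 : ℚ≥0) < (H : ℚ≥0) := by exact_mod_cast hH
      have hle : (H : ℚ≥0) ≤ ((S (e.symm i)).card : ℚ≥0) := by exact_mod_cast hS _
      gcongr
    refine h5.trans ?_
    rw [← Finset.sum_div]
    have h6 : (∑ i, (s i : ℚ≥0)) ≤ (P.totalDegree : ℚ≥0) := by
      have h7 : ∑ i, s i ≤ P.totalDegree := by
        refine le_trans ?_ ((MvPolynomial.le_totalDegree hs).trans h3)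
        rw [Finsupp.sum_fintype _ _ (fun _ => rfl)]
      exact_mod_cast h7
    gcongr
  have h5 := h1.trans h4
  have hprod : (∏ i : Fin N, ((S (e.symm i)).card : ℚ≥0)) = ((∏ i, (S i).card : ℕ) : ℚ≥0) := by
    push_cast
    exact Equiv.prod_comp e.symm fun i => ((S i).card : ℚ≥0)
  rw [hprod] at h5
  have hposP : (0 : ℚ≥0) < ((∏ i, (S i).card : ℕ) : ℚ≥0) := by
    exact_mod_cast Finset.prod_pos fun i _ => hSpos i
  have hposH : (0 : ℚ≥0) < (H : ℚ≥0) := by exact_mod_cast hH
  rw [div_le_div_iff₀ hposP hposH] at h5
  have h6 : ((Fintype.piFinset fun k : Fin N => S (e.symm k)).filter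
        fun f => MvPolynomial.eval f p' = 0).card * H ≤ P.totalDegree * ∏ i, (S i).card := by
    exact_mod_cast h5
  exact (Nat.mul_le_mul_right _ h2).trans h6

/-- Schwartz-Zippel on a cell: every coordinate `g i` is known through `κ i (g i)` only, and all
nonempty fibres of `κ i` have at least `H` points. -/
theorem card_zero_cell {ι γ : Type*} [Fintype ι] [DecidableEq ι] [DecidableEq γ] {R : ℕ} (H : ℕ)
    (κ : ι → Fin R → γ) (hκ : ∀ i k, H ≤ (univ.filter fun k' => κ i k' = κ i k).card)
    (c : ι → ℝ) (r : ι → γ) (P : MvPolynomial ι ℝ) (hP : P ≠ 0) :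
    (univ.filter fun g : ι → Fin R => (∀ i, κ i (g i) = r i) ∧
      MvPolynomial.eval (fun i => c i + ((g i : ℕ) : ℝ)) P = 0).card * H ≤
      P.totalDegree * (univ.filter fun g : ι → Fin R => ∀ i, κ i (g i) = r i).card := by
  classical
  by_cases hne : (univ.filter fun g : ι → Fin R => ∀ i, κ i (g i) = r i).Nonempty
  · obtain ⟨g0, hg0⟩ := hne
    have hg0' := (mem_filter.1 hg0).2
    set A : ι → Finset (Fin R) := fun i => univ.filter fun k => κ i k = r i with hA
    set S : ι → Finset ℝ := fun i => (A i).image (fun k : Fin R => c i + ((k : ℕ) : ℝ)) with hS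
    have hinj : ∀ i, Function.Injective fun k : Fin R => c i + ((k : ℕ) : ℝ) := by
      intro i k k' hk
      simp only [add_right_inj, Nat.cast_inj] at hk
      exact Fin.ext hk
    have hcS : ∀ i, (S i).card = (A i).card := fun i => Finset.card_image_of_injective _ (hinj i)
    have hHS : ∀ i, H ≤ (S i).card := by
      intro i
      rw [hcS]
      have := hκ i (g0 i)
      rw [hg0' i] at this
      exact this
    have h1 := card_zero_box P hP S H hHS
    have h2 : (univ.filter fun g : ι → Fin R => ∀ i, κ i (g i) = r i) = Fintype.piFinset A := by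
      ext g
      rw [mem_filter, Fintype.mem_piFinset]
      simp [hA]
    have h3 : (univ.filter fun g : ι → Fin R => ∀ i, κ i (g i) = r i).card = ∏ i, (S i).card := by
      rw [h2, Fintype.card_piFinset]
      exact Finset.prod_congr rfl fun i _ => (hcS i).symm
    rw [h3]
    refine le_trans (Nat.mul_le_mul_right _ ?_) h1
    apply Finset.card_le_card_of_injOn (fun g => fun i => c i + ((g i : ℕ) : ℝ))
    · intro g hg
      rw [Finset.mem_coe, mem_filter] at hg
      rw [Finset.mem_coe, mem_filter, Fintype.mem_piFinset]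
      refine ⟨fun i => ?_, hg.2.2⟩
      rw [hS, mem_image]
      exact ⟨g i, mem_filter.2 ⟨Finset.mem_univ _, hg.2.1 i⟩, rfl⟩
    · intro g _ g' _ heq
      funext i
      exact hinj i (congrFun heq i)
  · have h1 : (univ.filter fun g : ι → Fin R => (∀ i, κ i (g i) = r i) ∧
      MvPolynomial.eval (fun i => c i + ((g i : ℕ) : ℝ)) P = 0) = ∅ := by
      rw [Finset.eq_empty_iff_forall_notMem]
      intro g hg
      exact hne ⟨g, mem_filter.2 ⟨Finset.mem_univ _, (mem_filter.1 hg).2.1⟩⟩
    rw [h1]; simp

/-- Union bound: finitely many nonzero polynomials of degree at most `d`, depending on the cell. -/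
theorem card_bad_cell {ι γ : Type*} [Fintype ι] [DecidableEq ι] [DecidableEq γ] {R : ℕ} (H : ℕ)
    (κ : ι → Fin R → γ) (hκ : ∀ i k, H ≤ (univ.filter fun k' => κ i k' = κ i k).card)
    (c : ι → ℝ) (d N : ℕ) (K : (ι → γ) → Finset (MvPolynomial ι ℝ))
    (hK0 : ∀ r, ∀ P ∈ K r, P ≠ 0) (hKd : ∀ r, ∀ P ∈ K r, P.totalDegree ≤ d)
    (hKN : ∀ r, (K r).card ≤ N) (bad : (ι → Fin R) → Prop) [DecidablePred bad]
    (hbad : ∀ g, bad g → ∃ P ∈ K (fun i => κ i (g i)),
      MvPolynomial.eval (fun i => c i + ((g i : ℕ) : ℝ)) P = 0) :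
    (univ.filter bad).card * H ≤ N * (d * Fintype.card (ι → Fin R)) := by
  classical
  set F : (ι → Fin R) → (ι → γ) := fun g i => κ i (g i) with hF
  set I := (univ : Finset (ι → Fin R)).image F with hI
  have h1 : (univ.filter bad).card = ∑ r ∈ I, ((univ.filter bad).filter fun g => F g = r).card := by
    apply Finset.card_eq_sum_card_fiberwise
    intro g _
    exact Finset.mem_coe.2 (mem_image_of_mem _ (Finset.mem_univ _))
  have h2 : Fintype.card (ι → Fin R) =
      ∑ r ∈ I, ((univ : Finset (ι → Fin R)).filter fun g => F g = r).card := by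
    rw [← Finset.card_univ]
    apply Finset.card_eq_sum_card_fiberwise
    intro g _
    exact Finset.mem_coe.2 (mem_image_of_mem _ (Finset.mem_univ _))
  have h3 : ∀ r ∈ I, ((univ.filter bad).filter fun g => F g = r).card * H ≤
      N * (d * ((univ : Finset (ι → Fin R)).filter fun g => F g = r).card) := by
    intro r _
    have hcell : ((univ : Finset (ι → Fin R)).filter fun g => F g = r) =
        univ.filter fun g : ι → Fin R => ∀ i, κ i (g i) = r i := by
      ext g
      simp only [hF, mem_filter, Finset.mem_univ, true_and, funext_iff]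
    have h4 : ((univ.filter bad).filter fun g => F g = r) ⊆
        (K r).biUnion fun P => univ.filter fun g : ι → Fin R => (∀ i, κ i (g i) = r i) ∧
          MvPolynomial.eval (fun i => c i + ((g i : ℕ) : ℝ)) P = 0 := by
      intro g hg
      rw [mem_filter, mem_filter] at hg
      obtain ⟨P, hP, hz⟩ := hbad g hg.1.2
      have hr : (fun i => κ i (g i)) = r := hg.2
      rw [hr] at hP
      rw [mem_biUnion]
      exact ⟨P, hP, mem_filter.2 ⟨Finset.mem_univ _, fun i => congrFun hr i, hz⟩⟩
    calc _ ≤ (∑ P ∈ K r, (univ.filter fun g : ι → Fin R => (∀ i, κ i (g i) = r i) ∧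
          MvPolynomial.eval (fun i => c i + ((g i : ℕ) : ℝ)) P = 0).card) * H :=
          Nat.mul_le_mul_right _ ((Finset.card_le_card h4).trans Finset.card_biUnion_le)
      _ = ∑ P ∈ K r, (univ.filter fun g : ι → Fin R => (∀ i, κ i (g i) = r i) ∧
          MvPolynomial.eval (fun i => c i + ((g i : ℕ) : ℝ)) P = 0).card * H := Finset.sum_mul _ _ _
      _ ≤ ∑ P ∈ K r, d * (univ.filter fun g : ι → Fin R => ∀ i, κ i (g i) = r i).card := by
          apply Finset.sum_le_sum
          intro P hP
          exact (card_zero_cell H κ hκ c r P (hK0 r P hP)).trans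
            (Nat.mul_le_mul_right _ (hKd r P hP))
      _ = (K r).card * (d * (univ.filter fun g : ι → Fin R => ∀ i, κ i (g i) = r i).card) := by
          rw [Finset.sum_const, smul_eq_mul]
      _ ≤ _ := by
          rw [hcell]
          exact Nat.mul_le_mul_right _ (hKN r)
  calc (univ.filter bad).card * H
      = ∑ r ∈ I, ((univ.filter bad).filter fun g => F g = r).card * H := by
        rw [h1, Finset.sum_mul]
    _ ≤ ∑ r ∈ I, N * (d * ((univ : Finset (ι → Fin R)).filter fun g => F g = r).card) :=
        Finset.sum_le_sum h3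
    _ = N * (d * Fintype.card (ι → Fin R)) := by
        rw [h2, Finset.mul_sum, Finset.mul_sum]

end Pool.Agent.Helper14.LK
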