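import Mathlib
import Pool.Agent.Helper14.LK.Cells

set_option autoImplicit false
open Finset

/-!
Residues of noisy weights: size of the cells, genericity of value queries at base points and at
planted points when the list of handles depends on all residues, and the law of the residues.
-/

namespace Pool.Agent.Helper14.LK

open Pool.Agent.Helper22.EP Pool.Agent.Helper22.ETModel

/-- every residue class is hit at least `R / q` times -/
lemma le_card_res (R q : ℕ) [NeZero q] (b : ℤ) (r : ZMod q) :
    R / q ≤ (univ.filter fun k : Fin R => ((b + ((k : ℕ) : ℤ) : ℤ) : ZMod q) = r).card := by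
  classical
  have hq : 0 < q := Nat.pos_of_ne_zero (NeZero.ne q)
  set k0 : ℕ := (r - (b : ZMod q)).val with hk0
  have hk0q : k0 < q := ZMod.val_lt _
  have hlt : ∀ j : Fin (R / q), k0 + q * (j : ℕ) < R := by
    intro j
    have h1 : (j : ℕ) + 1 ≤ R / q := j.isLt
    have h2 : q * ((j : ℕ) + 1) ≤ q * (R / q) := Nat.mul_le_mul_left _ h1
    have h3 : q * (R / q) ≤ R := Nat.mul_div_le R q
    have h4 : q * ((j : ℕ) + 1) = q * (j : ℕ) + q := by ring
    omega
  have h1 : (univ : Finset (Fin (R / q))).card ≤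
      (univ.filter fun k : Fin R => ((b + ((k : ℕ) : ℤ) : ℤ) : ZMod q) = r).card := by
    apply Finset.card_le_card_of_injOn
      (fun j : Fin (R / q) => (⟨k0 + q * (j : ℕ), hlt j⟩ : Fin R))
    · intro j _
      rw [Finset.mem_coe, mem_filter]
      refine ⟨Finset.mem_univ _, ?_⟩
      have h5 : ((k0 : ℕ) : ZMod q) = r - (b : ZMod q) := by
        rw [hk0, ZMod.natCast_val, ZMod.cast_id', id_eq]
      push_cast
      rw [h5]
      simp
    · intro j _ j' _ heq
      have h5 := congrArg Fin.val heq
      simp only at h5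
      have h6 : q * (j : ℕ) = q * (j' : ℕ) := by omega
      exact Fin.ext (Nat.eq_of_mul_eq_mul_left hq h6)
  rwa [Finset.card_univ, Fintype.card_fin] at h1

/-- every residue class is hit at most `R / q + 1` times -/
lemma card_res_le (R q : ℕ) [NeZero q] (b : ℤ) (r : ZMod q) :
    (univ.filter fun k : Fin R => ((b + ((k : ℕ) : ℤ) : ℤ) : ZMod q) = r).card ≤ R / q + 1 := by
  classical
  have hq : 0 < q := Nat.pos_of_ne_zero (NeZero.ne q)
  have h1 : (univ.filter fun k : Fin R => ((b + ((k : ℕ) : ℤ) : ℤ) : ZMod q) = r).card ≤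
      (range (R / q + 1)).card := by
    apply Finset.card_le_card_of_injOn (fun k : Fin R => (k : ℕ) / q)
    · intro k _
      rw [Finset.mem_coe, mem_range]
      have := Nat.div_le_div_right (c := q) k.isLt.le
      show (k : ℕ) / q < R / q + 1
      omega
    · intro k hk k' hk' heq
      rw [Finset.mem_coe, mem_filter] at hk hk'
      have h2 : ((b + ((k : ℕ) : ℤ) : ℤ) : ZMod q) = ((b + ((k' : ℕ) : ℤ) : ℤ) : ZMod q) :=
        hk.2.trans hk'.2.symm
      push_cast at h2
      have h3 : (((k : ℕ)) : ZMod q) = (((k' : ℕ)) : ZMod q) := add_left_cancel h2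
      rw [ZMod.natCast_eq_natCast_iff'] at h3
      simp only at heq
      have h4 := Nat.div_add_mod (k : ℕ) q
      have h5 := Nat.div_add_mod (k' : ℕ) q
      apply Fin.ext
      rw [← h4, ← h5, heq, h3]
  rwa [Finset.card_range] at h1

/-- residues of the weights at a base point -/
def resB {m : ℕ} (q : ℕ) (p : Fin 3 × Fin m → ℤ) (B G : ℕ) (g : E m → Fin (G + 1)) (e : E m) :
    ZMod q := ((wB p B G g e : ℤ) : ZMod q)

/-- residues of the weights at a planted point -/
def resT {m : ℕ} (q : ℕ) (p : Fin 3 × Fin m → ℤ) (B G : ℕ) (T : Tri m) (g : E m → Fin (G + 1))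
    (e : E m) : ZMod q := ((wT p B G T g e : ℤ) : ZMod q)

open Classical in
/-- Value queries are generic at base points, even if the list of handles depends on the residues
of all the weights. -/
theorem card_badC0 {m : ℕ} (p : Fin 3 × Fin m → ℤ) (B G q d D : ℕ) [NeZero q]
    (L : (E m → ZMod q) → List (RForm m)) (hL : ∀ r, (L r).length ≤ D)
    (hd : ∀ r, ∀ f ∈ L r, f.totalDegree ≤ d) :
    (univ.filter fun g : E m → Fin (G + 1) => ∃ f ∈ L (resB q p B G g), ∃ f' ∈ L (resB q p B G g),
      f ≠ f' ∧ rev (wB p B G g) f = rev (wB p B G g) f').card * ((G + 1) / q) ≤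
      D ^ 2 * (d * Fintype.card (E m → Fin (G + 1))) := by
  set κ : E m → Fin (G + 1) → ZMod q :=
    fun e k => (((pot p e + B) + ((k : ℕ) : ℤ) : ℤ) : ZMod q) with hκ
  have hres : ∀ g : E m → Fin (G + 1), resB q p B G g = fun e => κ e (g e) := by
    intro g
    funext e
    simp only [resB, wB, hκ]
  apply card_bad_cell ((G + 1) / q) κ (fun e k => le_card_res (G + 1) q (pot p e + B) (κ e k))
    (fun e => (pot p e : ℝ) + B) d (D ^ 2)
    (fun r => ((((L r).toFinset ×ˢ (L r).toFinset).filter fun x => x.1 ≠ x.2).image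
      fun x => x.1 - x.2))
  · intro r P hP
    rw [mem_image] at hP
    obtain ⟨x, hx, rfl⟩ := hP
    exact sub_ne_zero.2 (mem_filter.1 hx).2
  · intro r P hP
    rw [mem_image] at hP
    obtain ⟨x, hx, rfl⟩ := hP
    rw [mem_filter, mem_product, List.mem_toFinset, List.mem_toFinset] at hx
    exact totalDegree_sub_le' (hd r _ hx.1.1) (hd r _ hx.1.2)
  · intro r
    refine Finset.card_image_le.trans ((Finset.card_filter_le _ _).trans ?_)
    rw [Finset.card_product, sq]
    have := (List.toFinset_card_le (L r)).trans (hL r)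
    exact Nat.mul_le_mul this this
  · rintro g ⟨f, hf, f', hf', hne, heq⟩
    rw [hres] at hf hf'
    refine ⟨f - f', ?_, ?_⟩
    · rw [mem_image]
      refine ⟨(f, f'), ?_, rfl⟩
      rw [mem_filter, mem_product, List.mem_toFinset, List.mem_toFinset]
      exact ⟨⟨hf, hf'⟩, hne⟩
    · rw [map_sub, sub_eq_zero]
      unfold rev at heq
      have : (fun e => ((wB p B G g e : ℤ) : ℝ)) = fun e => (pot p e : ℝ) + B + ((g e : ℕ) : ℝ) := by
        funext e
        unfold wB
        push_cast
        ring
      rw [this] at heq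
      exact heq

open Classical in
/-- Value queries are generic at planted points unless they cover the triangle, even if the list of
handles depends on the residues of all the weights. -/
theorem card_badCT {m : ℕ} (p : Fin 3 × Fin m → ℤ) (B G q d D : ℕ) [NeZero q] (T : Tri m)
    (L : (E m → ZMod q) → List (RForm m)) (hL : ∀ r, (L r).length ≤ D)
    (hd : ∀ r, ∀ f ∈ L r, f.totalDegree ≤ d) :
    (univ.filter fun g : E m → Fin (G + 1) => ∃ f ∈ L (resT q p B G T g),
      ∃ f' ∈ L (resT q p B G T g),
      (¬ ∀ w : E m → ℝ, ∑ e ∈ te T, w e = 0 → MvPolynomial.eval w f = MvPolynomial.eval w f') ∧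
      rev (wT p B G T g) f = rev (wT p B G T g) f').card * ((G + 1) / q) ≤
      D ^ 2 * (d * Fintype.card (E m → Fin (G + 1))) := by
  -- base weights of the free coordinates
  set bs : E m → ℤ := fun e => pot p e + (if e ∈ te T then 0 else (B : ℤ)) with hbs
  set κ : E m → Fin (G + 1) → ZMod q := fun e k =>
    if e = tk T 2 then 0 else ((bs e + ((k : ℕ) : ℤ) : ℤ) : ZMod q) with hκ
  -- reconstruction of all residues from the free ones
  set Ψ : (E m → ZMod q) → (E m → ZMod q) := fun r e =>
    if e = tk T 2 then - r (tk T 0) - r (tk T 1) else r e with hΨ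
  have h02 : tk T 0 ≠ tk T 2 := fun h => absurd (tk_inj T h) (by decide)
  have h12 : tk T 1 ≠ tk T 2 := fun h => absurd (tk_inj T h) (by decide)
  have hw : ∀ (g : E m → Fin (G + 1)) e, e ≠ tk T 2 → wT p B G T g e = bs e + ((g e : ℕ) : ℤ) := by
    intro g e he
    unfold wT
    simp only [hbs]
    by_cases h1 : e ∈ te T
    · rw [if_pos h1, if_neg he, if_pos h1]; ring
    · rw [if_neg h1, if_neg h1]
  have hw2 : ∀ g : E m → Fin (G + 1), wT p B G T g (tk T 2) =
      - wT p B G T g (tk T 0) - wT p B G T g (tk T 1) := by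
    intro g
    have h1 := wT_yes p B G T g
    rw [Fin.sum_univ_three] at h1
    linarith
  have hres : ∀ g : E m → Fin (G + 1), resT q p B G T g = Ψ fun e => κ e (g e) := by
    intro g
    funext e
    simp only [resT, hΨ, hκ]
    by_cases he : e = tk T 2
    · rw [if_pos he, he, hw2, if_neg h02, if_neg h12, hw g _ h02, hw g _ h12]
      push_cast
      ring
    · rw [if_neg he, if_neg he, hw g e he]
  apply card_bad_cell ((G + 1) / q) κ ?_ (fun e => (bs e : ℝ)) d (D ^ 2)
    (fun r => ((((L (Ψ r)).toFinset ×ˢ (L (Ψ r)).toFinset).filter fun x =>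
      MvPolynomial.aeval (sT T) (x.1 - x.2) ≠ 0).image
      fun x => MvPolynomial.aeval (sT T) (x.1 - x.2)))
  · intro r P hP
    rw [mem_image] at hP
    obtain ⟨x, hx, rfl⟩ := hP
    exact (mem_filter.1 hx).2
  · intro r P hP
    rw [mem_image] at hP
    obtain ⟨x, hx, rfl⟩ := hP
    rw [mem_filter, mem_product, List.mem_toFinset, List.mem_toFinset] at hx
    exact (totalDegree_aeval_le _ (totalDegree_sT T) _).trans
      (totalDegree_sub_le' (hd _ _ hx.1.1) (hd _ _ hx.1.2))
  · intro r
    refine Finset.card_image_le.trans ((Finset.card_filter_le _ _).trans ?_)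
    rw [Finset.card_product, sq]
    have := (List.toFinset_card_le (L (Ψ r))).trans (hL (Ψ r))
    exact Nat.mul_le_mul this this
  · rintro g ⟨f, hf, f', hf', hc, heq⟩
    rw [hres] at hf hf'
    have hev : ∀ w : E m → ℝ, MvPolynomial.eval w (MvPolynomial.aeval (sT T) (f - f')) =
        MvPolynomial.eval (fun e => if e = tk T 2 then -w (tk T 0) - w (tk T 1) else w e)
          (f - f') := by
      intro w
      rw [eval_aeval]
      congr 1
      congr 1
      funext e
      exact eval_sT T w e
    have hne : MvPolynomial.aeval (sT T) (f - f') ≠ 0 := by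
      intro h0
      apply hc
      intro w hw0
      have h1 := hev w
      rw [h0, map_zero] at h1
      have h2 : (fun e => if e = tk T 2 then -w (tk T 0) - w (tk T 1) else w e) = w := by
        funext e
        split_ifs with h3
        · rw [sum_te] at hw0
          rw [h3]; linarith
        · rfl
      rw [h2, map_sub] at h1
      linarith
    refine ⟨MvPolynomial.aeval (sT T) (f - f'), ?_, ?_⟩
    · rw [mem_image]
      refine ⟨(f, f'), ?_, rfl⟩
      rw [mem_filter, mem_product, List.mem_toFinset, List.mem_toFinset]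
      exact ⟨⟨hf, hf'⟩, hne⟩
    · rw [hev, map_sub, sub_eq_zero]
      unfold rev at heq
      have : (fun e => ((wT p B G T g e : ℤ) : ℝ)) = fun e => if e = tk T 2 then
          -((bs (tk T 0) : ℝ) + ((g (tk T 0) : ℕ) : ℝ)) - ((bs (tk T 1) : ℝ) + ((g (tk T 1) : ℕ) : ℝ))
          else (bs e : ℝ) + ((g e : ℕ) : ℝ) := by
        funext e
        by_cases he : e = tk T 2
        · rw [if_pos he, he, hw2, hw g _ h02, hw g _ h12]
          push_cast
          ring
        · rw [if_neg he, hw g e he]
          push_cast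
          ring
      rw [this] at heq
      exact heq
  · intro e k
    simp only [hκ]
    by_cases he : e = tk T 2
    · simp only [he, if_true]
      rw [Finset.filter_true_of_mem (fun _ _ => trivial), Finset.card_univ, Fintype.card_fin]
      exact Nat.div_le_self _ _
    · simp only [he, if_false]
      exact le_card_res (G + 1) q (bs e) _

/-- Law of the residues: the residues of independent uniform noise are nearly uniform. -/
theorem law_res {ι : Type*} [Fintype ι] [DecidableEq ι] (R q : ℕ) [NeZero q]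
    (hR : Fintype.card ι * q ≤ R) (hR0 : 0 < R) (b : ι → ℤ) (S : Finset (ι → ZMod q)) :
    |((univ.filter fun g : ι → Fin R =>
        (fun i => ((b i + ((g i : ℕ) : ℤ) : ℤ) : ZMod q)) ∈ S).card : ℝ) / (R : ℝ) ^ Fintype.card ι -
      (S.card : ℝ) / (q : ℝ) ^ Fintype.card ι| ≤ 2 * (Fintype.card ι * q / R) := by
  classical
  have hq : 0 < q := Nat.pos_of_ne_zero (NeZero.ne q)
  have hqr : (0 : ℝ) < q := by exact_mod_cast hq
  have hRr : (0 : ℝ) < R := by exact_mod_cast hR0
  set M := Fintype.card ι with hM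
  set F : (ι → Fin R) → (ι → ZMod q) := fun g i => ((b i + ((g i : ℕ) : ℤ) : ℤ) : ZMod q) with hF
  set x : ℝ := q / R with hx
  have hx0 : 0 ≤ x := by positivity
  have hMx : (M : ℝ) * x ≤ 1 := by
    rw [hx, ← mul_div_assoc, div_le_one hRr]
    exact_mod_cast hR
  have hcell : ∀ r : ι → ZMod q, ((univ.filter fun g : ι → Fin R => F g = r).card : ℝ) =
      ∏ i, ((univ.filter fun k : Fin R => ((b i + ((k : ℕ) : ℤ) : ℤ) : ZMod q) = r i).card : ℝ) := by
    intro r
    have h1 : (univ.filter fun g : ι → Fin R => F g = r) =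
        Fintype.piFinset fun i => univ.filter fun k : Fin R =>
          ((b i + ((k : ℕ) : ℤ) : ℤ) : ZMod q) = r i := by
      ext g
      rw [mem_filter, Fintype.mem_piFinset]
      simp [hF, funext_iff]
    rw [h1, Fintype.card_piFinset]
    push_cast
    rfl
  have hup1 : ∀ (i : ι) (r : ZMod q),
      ((univ.filter fun k : Fin R => ((b i + ((k : ℕ) : ℤ) : ℤ) : ZMod q) = r).card : ℝ) ≤
        (R : ℝ) / q * (1 + x) := by
    intro i r
    have h1 := card_res_le R q (b i) r
    have h2 : ((univ.filter fun k : Fin R => ((b i + ((k : ℕ) : ℤ) : ℤ) : ZMod q) = r).card : ℝ) ≤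
        ((R / q : ℕ) : ℝ) + 1 := by exact_mod_cast h1
    have h3 : ((R / q : ℕ) : ℝ) ≤ (R : ℝ) / q := Nat.cast_div_le
    have h4 : (R : ℝ) / q * (1 + x) = (R : ℝ) / q + 1 := by
      rw [hx]; field_simp
    rw [h4]; linarith
  have hlo1 : ∀ (i : ι) (r : ZMod q), (R : ℝ) / q * (1 - x) ≤
      ((univ.filter fun k : Fin R => ((b i + ((k : ℕ) : ℤ) : ℤ) : ZMod q) = r).card : ℝ) := by
    intro i r
    have h1 := le_card_res R q (b i) r
    have h2 : ((R / q : ℕ) : ℝ) ≤
        ((univ.filter fun k : Fin R => ((b i + ((k : ℕ) : ℤ) : ℤ) : ZMod q) = r).card : ℝ) := by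
      exact_mod_cast h1
    have h3 : (R : ℝ) / q < ((R / q : ℕ) : ℝ) + 1 := by
      rw [div_lt_iff₀ hqr]
      have h5 : R < (R / q + 1) * q := by
        have h6 := Nat.div_add_mod R q
        have h7 := Nat.mod_lt R hq
        calc R = q * (R / q) + R % q := h6.symm
          _ < q * (R / q) + q := by omega
          _ = (R / q + 1) * q := by ring
      exact_mod_cast h5
    have h4 : (R : ℝ) / q * (1 - x) = (R : ℝ) / q - 1 := by
      rw [hx]; field_simp
    rw [h4]; linarith
  -- counting over S
  have hcount : ((univ.filter fun g : ι → Fin R => F g ∈ S).card : ℝ) =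
      ∑ r ∈ S, ((univ.filter fun g : ι → Fin R => F g = r).card : ℝ) := by
    have h1 : (univ.filter fun g : ι → Fin R => F g ∈ S).card =
        ∑ r ∈ S, ((univ.filter fun g : ι → Fin R => F g ∈ S).filter fun g => F g = r).card := by
      apply Finset.card_eq_sum_card_fiberwise
      intro g hg
      exact (mem_filter.1 (Finset.mem_coe.1 hg)).2
    rw [h1]
    push_cast
    apply Finset.sum_congr rfl
    intro r hr
    congr 2
    ext g
    simp only [mem_filter, Finset.mem_univ, true_and]
    constructor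
    · rintro ⟨_, h⟩; exact h
    · intro h; exact ⟨h ▸ hr, h⟩
  have hSle : (S.card : ℝ) ≤ (q : ℝ) ^ M := by
    have h1 := Finset.card_le_univ S
    rw [Fintype.card_fun, ZMod.card] at h1
    exact_mod_cast h1
  set c0 : ℝ := ((univ.filter fun g : ι → Fin R => F g ∈ S).card : ℝ) with hc0
  have hUp : c0 ≤ S.card * (((R : ℝ) / q) ^ M * (1 + x) ^ M) := by
    rw [hcount, ← nsmul_eq_mul]
    apply Finset.sum_le_card_nsmul
    intro r _
    rw [hcell, ← mul_pow]
    calc _ ≤ ∏ i : ι, ((R : ℝ) / q * (1 + x)) := by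
          apply Finset.prod_le_prod
          · intro i _; positivity
          · intro i _; exact hup1 i (r i)
      _ = _ := by rw [Finset.prod_const, Finset.card_univ]
  have hLo : S.card * (((R : ℝ) / q) ^ M * (1 - M * x)) ≤ c0 := by
    rw [hcount, ← nsmul_eq_mul]
    apply Finset.card_nsmul_le_sum
    intro r _
    rcases Nat.eq_zero_or_pos M with hM0 | hMpos
    · rw [hcell]
      have : IsEmpty ι := Fintype.card_eq_zero_iff.1 hM0
      simp [hM0]
    have hx1 : x ≤ 1 := by
      have h1 : (1 : ℝ) ≤ M := by exact_mod_cast hMpos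
      nlinarith
    rw [hcell]
    have hB : 1 - (M : ℝ) * x ≤ (1 - x) ^ M := by
      have := one_add_mul_le_pow (a := -x) (by linarith) M
      calc 1 - (M : ℝ) * x = 1 + (M : ℝ) * (-x) := by ring
        _ ≤ (1 + (-x)) ^ M := this
        _ = (1 - x) ^ M := by ring_nf
    calc ((R : ℝ) / q) ^ M * (1 - M * x) ≤ ((R : ℝ) / q) ^ M * (1 - x) ^ M := by
          apply mul_le_mul_of_nonneg_left hB (by positivity)
      _ = ((R : ℝ) / q * (1 - x)) ^ M := by rw [← mul_pow]
      _ = ∏ i : ι, ((R : ℝ) / q * (1 - x)) := by rw [Finset.prod_const, Finset.card_univ]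
      _ ≤ _ := by
          apply Finset.prod_le_prod
          · intro i _
            apply mul_nonneg (by positivity)
            linarith
          · intro i _; exact hlo1 i (r i)
  have hpw : (1 + x) ^ M ≤ 1 + 2 * (M * x) := by
    have h1 : (1 + x) ^ M ≤ Real.exp (M * x) := by
      have h2 : 1 + x ≤ Real.exp x := by linarith [Real.add_one_le_exp x]
      calc (1 + x) ^ M ≤ (Real.exp x) ^ M := by gcongr
        _ = Real.exp (M * x) := by rw [← Real.exp_nat_mul]
    have h3 : Real.exp (M * x) ≤ 1 + 2 * (M * x) := by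
      have h4 : 0 ≤ (M : ℝ) * x := by positivity
      have h5 := Real.abs_exp_sub_one_le (x := (M : ℝ) * x) (by rw [abs_of_nonneg h4]; exact hMx)
      rw [abs_of_nonneg h4] at h5
      have h6 := le_abs_self (Real.exp ((M : ℝ) * x) - 1)
      linarith
    exact h1.trans h3
  have hRM : (0 : ℝ) < (R : ℝ) ^ M := by positivity
  have hqM : (0 : ℝ) < (q : ℝ) ^ M := by positivity
  have hratio : ((R : ℝ) / q) ^ M = (R : ℝ) ^ M / (q : ℝ) ^ M := div_pow _ _ _
  have hs : (S.card : ℝ) / (q : ℝ) ^ M ≤ 1 := by
    rw [div_le_one hqM]; exact hSle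
  have hs0 : 0 ≤ (S.card : ℝ) / (q : ℝ) ^ M := by positivity
  have e1 : (M : ℝ) * q / R = M * x := by rw [hx]; ring
  rw [e1]
  have h1 : c0 / (R : ℝ) ^ M ≤ (S.card : ℝ) / (q : ℝ) ^ M * (1 + 2 * (M * x)) := by
    rw [div_le_iff₀ hRM]
    calc c0 ≤ S.card * (((R : ℝ) / q) ^ M * (1 + x) ^ M) := hUp
      _ ≤ S.card * (((R : ℝ) / q) ^ M * (1 + 2 * (M * x))) := by gcongr
      _ = _ := by rw [hratio]; field_simp
  have h2 : (S.card : ℝ) / (q : ℝ) ^ M * (1 - M * x) ≤ c0 / (R : ℝ) ^ M := by
    rw [le_div_iff₀ hRM]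
    calc _ = S.card * (((R : ℝ) / q) ^ M * (1 - M * x)) := by rw [hratio]; field_simp
      _ ≤ c0 := hLo
  have hMx0 : 0 ≤ (M : ℝ) * x := by positivity
  rw [abs_le]
  constructor
  · nlinarith
  · nlinarith

end Pool.Agent.Helper14.LK
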