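import Mathlib
import Pool.Agent.Helper14.LK.Res

set_option autoImplicit false
open Finset

/-!
Law of the residues at base points and at planted points, and existence of a generic base point
with prescribed residues.
-/

namespace Pool.Agent.Helper14.LK

open Pool.Agent.Helper22.EP Pool.Agent.Helper22.ETModel

open Classical in
/-- Base points: the residue vector is nearly uniform. -/
theorem law_B {m : ℕ} (p : Fin 3 × Fin m → ℤ) (B G q : ℕ) [NeZero q]
    (hR : Fintype.card (E m) * q ≤ G + 1) (P : (E m → ZMod q) → Prop) :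
    |((univ.filter fun g : E m → Fin (G + 1) => P (resB q p B G g)).card : ℝ) /
        ((G + 1 : ℕ) : ℝ) ^ Fintype.card (E m) -
      ((univ.filter P).card : ℝ) / (q : ℝ) ^ Fintype.card (E m)| ≤
      2 * (Fintype.card (E m) * q / ((G + 1 : ℕ) : ℝ)) := by
  have h := law_res (ι := E m) (G + 1) q hR (Nat.succ_pos G) (fun e => pot p e + B)
    (univ.filter P)
  have h1 : (univ.filter fun g : E m → Fin (G + 1) =>
      (fun i => ((pot p i + B + ((g i : ℕ) : ℤ) : ℤ) : ZMod q)) ∈ univ.filter P) =
      univ.filter fun g : E m → Fin (G + 1) => P (resB q p B G g) := by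
    apply Finset.filter_congr
    intro g _
    rw [mem_filter]
    simp only [Finset.mem_univ, true_and]
    exact Iff.rfl
  rw [h1] at h
  exact h

/-- replace the residue of the third edge by minus the sum of the other two -/
def psi {m q : ℕ} (T : Tri m) (r : E m → ZMod q) (e : E m) : ZMod q :=
  if e = tk T 2 then - r (tk T 0) - r (tk T 1) else r e

lemma psi_sum {m q : ℕ} (T : Tri m) (r : E m → ZMod q) :
    psi T r (tk T 0) + psi T r (tk T 1) + psi T r (tk T 2) = 0 := by
  have h02 : tk T 0 ≠ tk T 2 := fun h => absurd (tk_inj T h) (by decide)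
  have h12 : tk T 1 ≠ tk T 2 := fun h => absurd (tk_inj T h) (by decide)
  unfold psi
  rw [if_neg h02, if_neg h12, if_pos rfl]
  ring

open Classical in
/-- every residue vector with sum zero on `T` has exactly `q` preimages under `psi` -/
lemma card_psi {m q : ℕ} [NeZero q] (T : Tri m) (P : (E m → ZMod q) → Prop) :
    (univ.filter fun r : E m → ZMod q => P (psi T r)).card =
      (univ.filter fun r : E m → ZMod q =>
        P r ∧ r (tk T 0) + r (tk T 1) + r (tk T 2) = 0).card * q := by
  have h02 : tk T 0 ≠ tk T 2 := fun h => absurd (tk_inj T h) (by decide)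
  have h12 : tk T 1 ≠ tk T 2 := fun h => absurd (tk_inj T h) (by decide)
  have h1 : (univ.filter fun r : E m → ZMod q =>
        P r ∧ r (tk T 0) + r (tk T 1) + r (tk T 2) = 0).card * q =
      ((univ.filter fun r : E m → ZMod q =>
        P r ∧ r (tk T 0) + r (tk T 1) + r (tk T 2) = 0) ×ˢ (univ : Finset (ZMod q))).card := by
    rw [Finset.card_product, Finset.card_univ, ZMod.card]
  rw [h1]
  have hback : ∀ r : E m → ZMod q, Function.update (psi T r) (tk T 2) (r (tk T 2)) = r := by
    intro r
    funext e
    by_cases he : e = tk T 2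
    · rw [he, Function.update_self]
    · rw [Function.update_of_ne he]
      unfold psi
      rw [if_neg he]
  have hforth : ∀ (r : E m → ZMod q) (c : ZMod q), r (tk T 0) + r (tk T 1) + r (tk T 2) = 0 →
      psi T (Function.update r (tk T 2) c) = r := by
    intro r c hr
    funext e
    unfold psi
    by_cases he : e = tk T 2
    · rw [if_pos he, Function.update_of_ne h02, Function.update_of_ne h12, he]
      linear_combination -hr
    · rw [if_neg he, Function.update_of_ne he]
  apply Finset.card_bij' (fun r _ => (psi T r, r (tk T 2)))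
    (fun x _ => Function.update x.1 (tk T 2) x.2)
  · intro r hr
    rw [mem_product, mem_filter]
    exact ⟨⟨Finset.mem_univ _, (mem_filter.1 hr).2, psi_sum T r⟩, Finset.mem_univ _⟩
  · intro x hx
    rw [mem_product, mem_filter] at hx
    rw [mem_filter]
    refine ⟨Finset.mem_univ _, ?_⟩
    rw [hforth x.1 x.2 hx.1.2.2]
    exact hx.1.2.1
  · intro r _
    exact hback r
  · intro x hx
    rw [mem_product, mem_filter] at hx
    apply Prod.ext
    · exact hforth x.1 x.2 hx.1.2.2
    · simp

open Classical in
/-- Planted points: the residue vector is nearly uniform on the vectors with sum zero on `T`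
(which are a fraction `1 / q` of all residue vectors). -/
theorem law_T {m : ℕ} (p : Fin 3 × Fin m → ℤ) (B G q : ℕ) [NeZero q] (T : Tri m)
    (hR : Fintype.card (E m) * q ≤ G + 1) (P : (E m → ZMod q) → Prop) :
    |((univ.filter fun g : E m → Fin (G + 1) => P (resT q p B G T g)).card : ℝ) /
        ((G + 1 : ℕ) : ℝ) ^ Fintype.card (E m) -
      ((univ.filter fun r : E m → ZMod q =>
        P r ∧ r (tk T 0) + r (tk T 1) + r (tk T 2) = 0).card : ℝ) * q /
          (q : ℝ) ^ Fintype.card (E m)| ≤
      2 * (Fintype.card (E m) * q / ((G + 1 : ℕ) : ℝ)) := by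
  have h := law_res (ι := E m) (G + 1) q hR (Nat.succ_pos G)
    (fun e => pot p e + (if e ∈ te T then 0 else (B : ℤ)))
    (univ.filter fun r => P (psi T r))
  have h02 : tk T 0 ≠ tk T 2 := fun h => absurd (tk_inj T h) (by decide)
  have h12 : tk T 1 ≠ tk T 2 := fun h => absurd (tk_inj T h) (by decide)
  have hw : ∀ (g : E m → Fin (G + 1)) e, e ≠ tk T 2 → wT p B G T g e =
      pot p e + (if e ∈ te T then 0 else (B : ℤ)) + ((g e : ℕ) : ℤ) := by
    intro g e he
    unfold wT
    by_cases h1 : e ∈ te T
    · rw [if_pos h1, if_neg he, if_pos h1]; ring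
    · rw [if_neg h1, if_neg h1]
  have hw2 : ∀ g : E m → Fin (G + 1), wT p B G T g (tk T 2) =
      - wT p B G T g (tk T 0) - wT p B G T g (tk T 1) := by
    intro g
    have h1 := wT_yes p B G T g
    rw [Fin.sum_univ_three] at h1
    linarith
  have hres : ∀ g : E m → Fin (G + 1), psi T (fun e =>
      ((pot p e + (if e ∈ te T then 0 else (B : ℤ)) + ((g e : ℕ) : ℤ) : ℤ) : ZMod q)) =
      resT q p B G T g := by
    intro g
    funext e
    simp only [resT, psi]
    by_cases he : e = tk T 2
    · rw [if_pos he, he, hw2, hw g _ h02, hw g _ h12]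
      push_cast
      ring
    · rw [if_neg he, hw g e he]
  have h1 : (univ.filter fun g : E m → Fin (G + 1) =>
      (fun i => ((pot p i + (if i ∈ te T then 0 else (B : ℤ)) + ((g i : ℕ) : ℤ) : ℤ) : ZMod q)) ∈
        univ.filter fun r => P (psi T r)) =
      univ.filter fun g : E m → Fin (G + 1) => P (resT q p B G T g) := by
    apply Finset.filter_congr
    intro g _
    rw [mem_filter, hres g]
    simp only [Finset.mem_univ, true_and]
  rw [h1, card_psi] at h
  push_cast at h ⊢
  exact h

open Classical in
/-- For every residue vector there is a base point with these residues at which prescribed handles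
are pairwise different. -/
theorem exists_generic {m : ℕ} (p : Fin 3 × Fin m → ℤ) (B G q d D : ℕ) [NeZero q]
    (hbig : D ^ 2 * d < (G + 1) / q) (r : E m → ZMod q) (l : List (RForm m)) (hl : l.length ≤ D)
    (hd : ∀ f ∈ l, f.totalDegree ≤ d) :
    ∃ g : E m → Fin (G + 1), resB q p B G g = r ∧
      ∀ f ∈ l, ∀ f' ∈ l, rev (wB p B G g) f = rev (wB p B G g) f' → f = f' := by
  by_contra hcon
  push Not at hcon
  set κ : E m → Fin (G + 1) → ZMod q :=
    fun e k => (((pot p e + B) + ((k : ℕ) : ℤ) : ℤ) : ZMod q) with hκ
  have hres : ∀ g : E m → Fin (G + 1), resB q p B G g = fun e => κ e (g e) := by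
    intro g
    funext e
    simp only [resB, wB, hκ]
  set cell := (univ.filter fun g : E m → Fin (G + 1) => ∀ e, κ e (g e) = r e) with hcell
  set K : Finset (RForm m) := (((l.toFinset ×ˢ l.toFinset).filter fun x => x.1 ≠ x.2).image
      fun x => x.1 - x.2) with hK
  have hKcard : K.card ≤ D ^ 2 := by
    refine Finset.card_image_le.trans ((Finset.card_filter_le _ _).trans ?_)
    rw [Finset.card_product, sq]
    have := (List.toFinset_card_le l).trans hl
    exact Nat.mul_le_mul this this
  have hcov : cell ⊆ K.biUnion fun P => univ.filter fun g : E m → Fin (G + 1) =>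
      (∀ e, κ e (g e) = r e) ∧
        MvPolynomial.eval (fun e => ((pot p e : ℝ) + B) + ((g e : ℕ) : ℝ)) P = 0 := by
    intro g hg
    have hg' := (mem_filter.1 hg).2
    obtain ⟨f, hf, f', hf', heq, hne⟩ := hcon g (by rw [hres]; exact funext hg')
    rw [mem_biUnion]
    refine ⟨f - f', ?_, ?_⟩
    · rw [hK, mem_image]
      refine ⟨(f, f'), ?_, rfl⟩
      rw [mem_filter, mem_product, List.mem_toFinset, List.mem_toFinset]
      exact ⟨⟨hf, hf'⟩, hne⟩
    · rw [mem_filter]
      refine ⟨Finset.mem_univ _, hg', ?_⟩
      rw [map_sub, sub_eq_zero]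
      unfold rev at heq
      have : (fun e => ((wB p B G g e : ℤ) : ℝ)) =
          fun e => ((pot p e : ℝ) + B) + ((g e : ℕ) : ℝ) := by
        funext e
        unfold wB
        push_cast
        ring
      rw [this] at heq
      exact heq
  have hfib : ∀ e k, (G + 1) / q ≤ (univ.filter fun k' => κ e k' = κ e k).card :=
    fun e k => le_card_res (G + 1) q (pot p e + B) (κ e k)
  have h1 : cell.card * ((G + 1) / q) ≤ D ^ 2 * d * cell.card := by
    calc cell.card * ((G + 1) / q) ≤ (∑ P ∈ K, (univ.filter fun g : E m → Fin (G + 1) =>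
          (∀ e, κ e (g e) = r e) ∧
            MvPolynomial.eval (fun e => ((pot p e : ℝ) + B) + ((g e : ℕ) : ℝ)) P = 0).card) *
              ((G + 1) / q) :=
          Nat.mul_le_mul_right _ ((Finset.card_le_card hcov).trans Finset.card_biUnion_le)
      _ = ∑ P ∈ K, (univ.filter fun g : E m → Fin (G + 1) => (∀ e, κ e (g e) = r e) ∧
            MvPolynomial.eval (fun e => ((pot p e : ℝ) + B) + ((g e : ℕ) : ℝ)) P = 0).card *
              ((G + 1) / q) := Finset.sum_mul _ _ _
      _ ≤ ∑ P ∈ K, d * cell.card := by
          apply Finset.sum_le_sum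
          intro P hP
          rw [hK, mem_image] at hP
          obtain ⟨x, hx, rfl⟩ := hP
          rw [mem_filter, mem_product, List.mem_toFinset, List.mem_toFinset] at hx
          exact (card_zero_cell ((G + 1) / q) κ hfib _ r _ (sub_ne_zero.2 hx.2)).trans
            (Nat.mul_le_mul_right _ (totalDegree_sub_le' (hd _ hx.1.1) (hd _ hx.1.2)))
      _ = K.card * (d * cell.card) := by rw [Finset.sum_const, smul_eq_mul]
      _ ≤ D ^ 2 * (d * cell.card) := Nat.mul_le_mul_right _ hKcard
      _ = _ := by ring
  have hpos : 0 < cell.card := by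
    have h2 : cell = Fintype.piFinset fun e => univ.filter fun k => κ e k = r e := by
      ext g
      rw [hcell, mem_filter, Fintype.mem_piFinset]
      simp
    rw [h2, Fintype.card_piFinset]
    apply Finset.prod_pos
    intro e _
    have h3 := le_card_res (G + 1) q (pot p e + B) (r e)
    exact lt_of_lt_of_le (lt_of_le_of_lt (Nat.zero_le _) hbig) h3
  have h2 : D ^ 2 * d * cell.card < cell.card * ((G + 1) / q) := by
    rw [mul_comm (D ^ 2 * d)]
    exact Nat.mul_lt_mul_of_pos_left hbig hpos
  omega

end Pool.Agent.Helper14.LK
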